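import Pool.Agent.Lib.MP_5fa4f2_an.Defs

/-!
The blow-up of the complex projective plane at the point `[1:0:0]`, as the incidence surface in
`P^2 × P^1`, its four standard affine charts, and the pulled back Fubini-Study forms read in them.
-/

set_option autoImplicit false

open scoped LinearAlgebra.Projectivization

namespace Pool.Agent.Lib.MP_5fa4f2_an.BU

/-- The surface `{([z0:z1:z2], [w0:w1]) : z1 w1 = z2 w0}`, the blow-up of `P^2` at `[1:0:0]`. -/
def Bl : Type :=
  {p : ℙ ℂ (Fin 3 → ℂ) × ℙ ℂ (Fin 2 → ℂ) // p.1.rep 1 * p.2.rep 1 = p.1.rep 2 * p.2.rep 0}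

/-- Homogeneous coordinates in `P^2` of the point with coordinates `y` in chart `i`. -/
def Zc (i : Fin 4) (y : Fin 2 → ℂ) : Fin 3 → ℂ :=
  ![![1, y 0, y 0 * y 1], ![1, y 0 * y 1, y 0], ![y 0, 1, y 1], ![y 0, y 1, 1]] i

/-- Homogeneous coordinates in `P^1` of the point with coordinates `y` in chart `i`. -/
def Wc (i : Fin 4) (y : Fin 2 → ℂ) : Fin 2 → ℂ :=
  ![![1, y 1], ![y 1, 1], ![1, y 1], ![y 1, 1]] i

theorem Zc_ne (i : Fin 4) (y : Fin 2 → ℂ) : Zc i y ≠ 0 := fun h => by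
  have h0 := congrFun h 0
  have h1 := congrFun h 1
  have h2 := congrFun h 2
  fin_cases i <;> simp_all [Zc]

theorem Wc_ne (i : Fin 4) (y : Fin 2 → ℂ) : Wc i y ≠ 0 := fun h => by
  have h0 := congrFun h 0
  have h1 := congrFun h 1
  fin_cases i <;> simp_all [Wc]

/-- The four standard affine charts `C^2 → Bl`. -/
noncomputable def chart (i : Fin 4) (y : Fin 2 → ℂ) : Bl :=
  ⟨(Projectivization.mk ℂ (Zc i y) (Zc_ne i y), Projectivization.mk ℂ (Wc i y) (Wc_ne i y)), by
    obtain ⟨a, ha⟩ := Projectivization.exists_smul_eq_mk_rep ℂ (Zc i y) (Zc_ne i y)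
    obtain ⟨b, hb⟩ := Projectivization.exists_smul_eq_mk_rep ℂ (Wc i y) (Wc_ne i y)
    simp only [← ha, ← hb, Pi.smul_apply, Units.smul_def, smul_eq_mul]
    fin_cases i <;> simp [Zc, Wc] <;> ring⟩

/-- The pull-back `dd^c log |f|^2` of the Fubini-Study form under `y ↦ [f y]`. -/
noncomputable def fs {k : ℕ} (f : (Fin 2 → ℂ) → Fin k → ℂ) (y : Fin 2 → ℂ) :
    Matrix (Fin 2) (Fin 2) ℂ :=
  levi (fun x => Real.log (∑ j, ‖f x j‖ ^ 2)) y

/-- The density in chart `i` of the volume form `kappa^2`, where `kappa` is the restriction to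
`Bl` of the sum of the Fubini-Study forms of `P^2` and `P^1`. -/
noncomputable def dens (i : Fin 4) (y : Fin 2 → ℂ) : ℝ := (fs (Zc i) y + fs (Wc i) y).det.re

end Pool.Agent.Lib.MP_5fa4f2_an.BU
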