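import Pool.Agent.Lib.MP_5fa4f2_an.BU.Visc

/-! The global functions on the blow-up and their form in the charts. -/

set_option autoImplicit false

open scoped ComplexOrder ComplexConjugate LinearAlgebra.Projectivization
open Filter Topology Matrix

namespace Pool.Agent.Lib.MP_5fa4f2_an.BU

def kk (i : Fin 4) : ℝ := ![0, 0, 1, 1] i

theorem kk_or (i : Fin 4) : kk i = 0 ∨ kk i = 1 := by fin_cases i <;> simp [kk]

theorem YY_zero (y : V) : YY 0 y = N 0 y * be y := by
  simp [YY, rr, Real.exp_log (be_pos y)]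

theorem YY_one (y : V) : YY 1 y = N 0 y / be y := by
  rw [YY, rr, show (1 - 2 * 1 : ℝ) * Real.log (be y) = -Real.log (be y) by ring, Real.exp_neg,
    Real.exp_log (be_pos y), div_eq_mul_inv]

theorem pot_zero (y : V) : pot fo 0 0 y = Real.log (1 + N 0 y + N 0 y * N 1 y) := by
  rw [pot, fo, YY_zero, be, zero_mul, add_zero]
  congr 1
  ring

theorem pot_one (y : V) : pot fo 1 1 y = Real.log (N 0 y + 1 + N 1 y) := by
  have h := be_pos y
  have h0 := N_nonneg 0 y
  rw [pot, fo, YY_one, one_mul, ← Real.log_mul (by positivity) h.ne']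
  congr 1
  field_simp
  simp only [be]
  ring

theorem fs_Z (i : Fin 4) : fs (Zc i) = om (kk i) := by
  funext y
  rw [fs, om]
  congr 1
  funext x
  fin_cases i <;>
    simp only [kk, Zc, Fin.sum_univ_three, Fin.zero_eta, Fin.mk_one, Fin.reduceFinMk,
      cons_val_zero, cons_val_one, cons_val, pot_zero, pot_one, N, norm_mul, norm_one] <;>
    congr 1 <;> ring

theorem fs_W (i : Fin 4) (y : V) : fs (Wc i) y = M 0 0 (1 / be y ^ 2) y := by
  rw [fs, ← levi_sigma]
  congr 1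
  funext x
  fin_cases i <;> simp [Wc, pot, be, N, add_comm]

theorem dens_eq (i : Fin 4) : dens i = de (kk i) := by
  funext y
  rw [dens, de, fs_Z, fs_W]

theorem om_cont (k : ℝ) : Continuous (om k) := by
  rw [show om k = _ from funext (levi_fo k k)]
  have h1 := (rr_smooth k).continuous
  have h2 := (YY_smooth k).continuous
  have h3 := be_smooth.continuous
  have h0 := (N_smooth 1).continuous
  have h4 : ∀ x, 1 + YY k x ≠ 0 := fun x => by linarith [YY_nonneg k x]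
  have h5 : ∀ x, be x ^ 2 ≠ 0 := fun x => pow_ne_zero 2 (be_pos x).ne'
  have h6 : ∀ x, (1 + YY k x) ^ 2 ≠ 0 := fun x => pow_ne_zero 2 (h4 x)
  have h7 : ∀ x, be x ≠ 0 := fun x => (be_pos x).ne'
  refine continuous_matrix fun i j => ?_
  fin_cases i <;> fin_cases j <;>
    simp only [MM, M, Fin.zero_eta, Fin.mk_one, of_apply, cons_val', cons_val_zero, cons_val_one,
      cons_val_fin_one] <;> fun_prop (disch := assumption)

noncomputable def R (a b : ℝ) : ℝ := Real.log ((a + b) ^ 2 / (a ^ 2 + b ^ 2))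

theorem R_mul {c : ℝ} (hc : c ≠ 0) (a b : ℝ) : R (c * a) (c * b) = R a b := by
  rw [R, R, show (c * a + c * b) ^ 2 = c ^ 2 * (a + b) ^ 2 by ring,
    show (c * a) ^ 2 + (c * b) ^ 2 = c ^ 2 * (a ^ 2 + b ^ 2) by ring,
    mul_div_mul_left _ _ (pow_ne_zero 2 hc)]

theorem psi_eq (k : ℝ) (y : V) : psi k y = R 1 √(YY k y) := by
  have h := YY_nonneg k y
  rw [psi, R, fp, fo, Real.sq_sqrt h, one_pow, Real.log_div (by positivity) (by positivity),
    Real.log_pow]
  norm_num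

theorem psi_bd (k : ℝ) (y : V) : 0 ≤ psi k y ∧ psi k y ≤ 1 := by
  have h := Real.sqrt_nonneg (YY k y)
  rw [psi_eq, R]
  generalize √(YY k y) = τ at h
  have h1 : 0 < 1 ^ 2 + τ ^ 2 := by positivity
  refine ⟨Real.log_nonneg ((one_le_div h1).2 (by nlinarith)),
    (Real.log_le_sub_one_of_pos (by positivity)).trans ?_⟩
  rw [sub_le_iff_le_add, div_le_iff₀ h1]
  nlinarith [sq_nonneg (1 - τ)]

theorem psi_cont (k : ℝ) : Continuous (psi k) := by
  have h2 := (YY_smooth k).continuous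
  have h4 : ∀ x, 1 + YY k x ≠ 0 := fun x => by linarith [YY_nonneg k x]
  have h5 : ∀ x, 1 + √(YY k x) ≠ 0 := fun x => by positivity
  unfold psi fp fo
  fun_prop (disch := assumption)

noncomputable def U (z : Fin 3 → ℂ) : ℝ := R ‖z 0‖ √(‖z 1‖ ^ 2 + ‖z 2‖ ^ 2)

theorem U_smul (a : ℂˣ) (z : Fin 3 → ℂ) : U (a • z) = U z := by
  have h : ‖(a : ℂ)‖ ≠ 0 := norm_ne_zero_iff.2 a.ne_zero
  rw [U, U, ← R_mul h ‖z 0‖]
  simp only [Pi.smul_apply, Units.smul_def, smul_eq_mul, norm_mul, mul_pow]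
  rw [← mul_add, Real.sqrt_mul (sq_nonneg _), Real.sqrt_sq (norm_nonneg _)]

theorem U_one (y : V) : R ‖y 0‖ √(be y) = psi 1 y := by
  have h := Real.sqrt_pos.2 (be_pos y)
  rw [psi_eq, YY_one, Real.sqrt_div (N_nonneg 0 y), N, Real.sqrt_sq (norm_nonneg _),
    ← R_mul h.ne' 1, mul_one, mul_div_cancel₀ _ h.ne', R, R, add_comm ‖y 0‖, add_comm (‖y 0‖ ^ 2)]

theorem U_Z (i : Fin 4) (y : V) : U (Zc i y) = psi (kk i) y := by
  fin_cases i
  · simp only [U, kk, Zc, Fin.zero_eta, cons_val_zero, cons_val_one, cons_val, psi_eq, YY_zero,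
      norm_one, norm_mul, N, be]
    congr 2; ring
  · simp only [U, kk, Zc, Fin.mk_one, cons_val_zero, cons_val_one, cons_val, psi_eq, YY_zero,
      norm_one, norm_mul, N, be]
    congr 2; ring
  · simp only [U, kk, Zc, Fin.reduceFinMk, cons_val_zero, cons_val_one, cons_val, ← U_one,
      norm_one, N, be, one_pow]
  · simp only [U, kk, Zc, Fin.reduceFinMk, cons_val_zero, cons_val_one, cons_val, ← U_one,
      norm_one, N, be, one_pow, add_comm]

theorem U_chart (i : Fin 4) (y : V) : U (chart i y).1.1.rep = psi (kk i) y := by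
  obtain ⟨a, ha⟩ := Projectivization.exists_smul_eq_mk_rep ℂ (Zc i y) (Zc_ne i y)
  rw [← U_Z, ← U_smul a (Zc i y), ha]
  rfl

/-- The blown up point. -/
noncomputable def pt : ℙ ℂ (Fin 3 → ℂ) := Projectivization.mk ℂ (Pi.single 0 1) (by simp)

theorem chart_pt (i : Fin 4) (y : V) : (chart i y).1.1 = pt ↔ kk i = 0 ∧ y 0 = 0 := by
  have : (chart i y).1.1 = pt ↔ Zc i y 1 = 0 ∧ Zc i y 2 = 0 := by
    refine (Projectivization.mk_eq_mk_iff' ℂ _ _ (Zc_ne i y) _).trans ⟨?_, fun h => ?_⟩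
    · rintro ⟨a, ha⟩
      simp [← ha]
    · refine ⟨Zc i y 0, funext fun j => ?_⟩
      fin_cases j <;> simp [h.1, h.2]
  rw [this]
  fin_cases i <;> simp +contextual [Zc, kk]

theorem chart_eq {i : Fin 4} {y : V} {p : Bl} {a b : ℂ} (h1 : a • Zc i y = p.1.1.rep)
    (h2 : b • Wc i y = p.1.2.rep) : chart i y = p := by
  refine Subtype.ext (Prod.ext ?_ ?_)
  · exact (((Projectivization.mk_eq_mk_iff' ℂ _ _ p.1.1.rep_nonzero (Zc_ne i y)).2
      ⟨a, h1⟩).symm).trans p.1.1.mk_rep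
  · exact (((Projectivization.mk_eq_mk_iff' ℂ _ _ p.1.2.rep_nonzero (Wc_ne i y)).2
      ⟨b, h2⟩).symm).trans p.1.2.mk_rep

theorem chart_cover (p : Bl) : ∃ i y, chart i y = p := by
  have h := p.2
  have hz := p.1.1.rep_nonzero
  have hw := p.1.2.rep_nonzero
  suffices ∃ i y, ∃ a b : ℂ, a • Zc i y = p.1.1.rep ∧ b • Wc i y = p.1.2.rep by
    obtain ⟨i, y, a, b, h1, h2⟩ := this
    exact ⟨i, y, chart_eq h1 h2⟩
  generalize p.1.1.rep = z at h hz
  generalize p.1.2.rep = w at h hw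
  by_cases w0 : w 0 = 0
  · have w1 : w 1 ≠ 0 := fun e => hw (funext fun j => by fin_cases j <;> simp [w0, e])
    have z1 : z 1 = 0 := by simpa [w0, w1] using h
    by_cases z0 : z 0 = 0
    · refine ⟨3, 0, z 2, w 1, funext fun j => ?_, funext fun j => ?_⟩ <;> fin_cases j <;>
        simp [Zc, Wc, z0, z1, w0]
    · refine ⟨1, ![z 2 / z 0, 0], z 0, w 1, funext fun j => ?_, funext fun j => ?_⟩ <;>
        fin_cases j <;> simp [Zc, Wc, z1, w0, mul_div_cancel₀ _ z0]
  · have z2 : z 2 = z 1 * (w 1 / w 0) := by field_simp; exact h.symm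
    by_cases z0 : z 0 = 0
    · refine ⟨2, ![0, w 1 / w 0], z 1, w 0, funext fun j => ?_, funext fun j => ?_⟩ <;>
        fin_cases j <;> simp [Zc, Wc, z0, z2, mul_div_cancel₀ _ w0]
    · refine ⟨0, ![z 1 / z 0, w 1 / w 0], z 0, w 0, funext fun j => ?_, funext fun j => ?_⟩ <;>
        fin_cases j <;> simp [Zc, Wc, z2, mul_div_cancel₀ _ w0, mul_div_cancel₀ _ z0, ← mul_assoc]

theorem chart_inj (i : Fin 4) : Function.Injective (chart i) := by
  intro x y h
  obtain ⟨a, ha⟩ := (Projectivization.mk_eq_mk_iff' ℂ _ _ (Zc_ne i x) (Zc_ne i y)).1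
    (congrArg (fun p : Bl => p.1.1) h)
  obtain ⟨b, hb⟩ := (Projectivization.mk_eq_mk_iff' ℂ _ _ (Wc_ne i x) (Wc_ne i y)).1
    (congrArg (fun p : Bl => p.1.2) h)
  have a0 := congrFun ha 0
  have a1 := congrFun ha 1
  have a2 := congrFun ha 2
  have b0 := congrFun hb 0
  have b1 := congrFun hb 1
  funext j
  fin_cases i <;> fin_cases j <;> simp_all [Zc, Wc]

end Pool.Agent.Lib.MP_5fa4f2_an.BU
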