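import Pool.Agent.Lib.MP_5fa4f2_an.BU.Toric

/-! The potentials in the two kinds of charts (`k = 0`: charts meeting the exceptional curve,
`k = 1`: charts meeting the line at infinity). -/

set_option autoImplicit false

open scoped ComplexOrder ComplexConjugate
open Filter Topology Matrix

namespace Pool.Agent.Lib.MP_5fa4f2_an.BU

noncomputable def be (y : V) : ℝ := 1 + N 1 y

noncomputable def rr (k : ℝ) (y : V) : ℝ := Real.exp ((1 - 2 * k) * Real.log (be y))

noncomputable def YY (k : ℝ) (y : V) : ℝ := N 0 y * rr k y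

noncomputable def pot (f : ℝ → ℝ) (k c : ℝ) (y : V) : ℝ := f (YY k y) + c * Real.log (be y)

theorem be_pos (y : V) : 0 < be y := by have := N_nonneg 1 y; unfold be; linarith

theorem rr_pos (k : ℝ) (y : V) : 0 < rr k y := Real.exp_pos _

theorem YY_nonneg (k : ℝ) (y : V) : 0 ≤ YY k y := mul_nonneg (N_nonneg 0 y) (rr_pos k y).le

theorem be_smooth : ContDiff ℝ 2 be := contDiff_const.add (N_smooth 1)

theorem lbe_smooth : ContDiff ℝ 2 fun y => Real.log (be y) :=
  be_smooth.log fun y => (be_pos y).ne'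

theorem rr_smooth (k : ℝ) : ContDiff ℝ 2 (rr k) := (contDiff_const.mul lbe_smooth).exp

theorem YY_smooth (k : ℝ) : ContDiff ℝ 2 (YY k) := (N_smooth 0).mul (rr_smooth k)

theorem pot_smooth {f : ℝ → ℝ} {k c : ℝ} {x : V} (hf : ContDiffAt ℝ 2 f (YY k x)) :
    ContDiffAt ℝ 2 (pot f k c) x :=
  (hf.comp x (YY_smooth k).contDiffAt).add (contDiffAt_const.mul lbe_smooth.contDiffAt)

theorem TD.be (y : V) : TD be y 0 1 :=
  ((TD.n1 y).comp ((hasDerivAt_id (N 1 y)).const_add 1)).congr (by simp) (by simp)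

theorem TD.lbe (y : V) : TD (fun x => Real.log (BU.be x)) y 0 (BU.be y)⁻¹ :=
  ((TD.be y).comp (Real.hasDerivAt_log (be_pos y).ne')).congr (by simp) (by simp)

theorem TD.ibe (y : V) : TD (fun x => (BU.be x)⁻¹) y 0 (-(BU.be y ^ 2)⁻¹) :=
  ((TD.be y).comp (hasDerivAt_inv (be_pos y).ne')).congr (by simp) (by simp)

theorem TD.rr (k : ℝ) (y : V) : TD (rr k) y 0 ((1 - 2 * k) * rr k y * (BU.be y)⁻¹) :=
  ((TD.lbe y).comp (f := fun s => Real.exp ((1 - 2 * k) * s))
    ((hasDerivAt_id _).const_mul (1 - 2 * k)).exp).congr (by simp) (by simp only [BU.rr, id]; ring)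

theorem TD.YY (k : ℝ) (y : V) : TD (YY k) y (BU.rr k y) ((1 - 2 * k) * YY k y * (BU.be y)⁻¹) :=
  ((TD.n0 y).mul (TD.rr k y)).congr (by simp) (by simp [BU.YY]; ring)

theorem levi_pot {f f1 : ℝ → ℝ} {f2 k c : ℝ} {x : V}
    (h1 : ∀ᶠ s in 𝓝 (YY k x), HasDerivAt f (f1 s) s) (h2 : HasDerivAt f1 f2 (YY k x)) :
    levi (pot f k c) x = M (rr k x * (f1 (YY k x) + YY k x * f2))
      ((1 - 2 * k) * rr k x * (f1 (YY k x) + YY k x * f2) / be x)
      (((1 - 2 * k) * (YY k x * f1 (YY k x)) + c +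
        (1 - 2 * k) ^ 2 * N 1 x * (f1 (YY k x) + YY k x * f2) * YY k x) / be x ^ 2) x := by
  have hb := (be_pos x).ne'
  have hF : ∀ᶠ y in 𝓝 x, TD (pot f k c) y (f1 (YY k y) * rr k y)
      (((1 - 2 * k) * (YY k y * f1 (YY k y)) + c) * (be y)⁻¹) := by
    filter_upwards [(YY_smooth k).continuous.continuousAt.eventually h1] with y hy
    exact (((TD.YY k y).comp hy).add ((TD.lbe y).comp
      ((hasDerivAt_id _).const_mul c))).congr (by simp) (by simp; ring)
  have g0 := ((TD.YY k x).comp h2).mul (TD.rr k x)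
  have g1 := ((TD.YY k x).comp (f := fun s => (1 - 2 * k) * (s * f1 s) + c)
    ((((hasDerivAt_id _).mul h2).const_mul (1 - 2 * k)).add_const c)).mul (TD.ibe x)
  rw [levi_toric hF (g0.congr rfl (q' := (1 - 2 * k) * rr k x * (f1 (YY k x) + YY k x * f2) / be x)
    (by field_simp; ring)) (g1.congr (by simp; field_simp) rfl)]
  congr 1
  · simp only [YY]; ring
  · have : N 1 x = be x - 1 := by simp [be]
    simp only [id, this]
    field_simp
    ring

theorem M_det' (k D φ : ℝ) (x : V) :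
    (M (rr k x * D) ((1 - 2 * k) * rr k x * D / be x)
      ((φ + (1 - 2 * k) ^ 2 * N 1 x * D * YY k x) / be x ^ 2) x).det.re =
      rr k x * D * φ / be x ^ 2 := by
  have hb := (be_pos x).ne'
  rw [M_det, YY]
  field_simp
  ring

noncomputable def fo (s : ℝ) : ℝ := Real.log (1 + s)

noncomputable def fp (s : ℝ) : ℝ := 2 * Real.log (1 + √s)

/-- The matrix with `D`, `φ`. -/
noncomputable def MM (k D φ : ℝ) (x : V) : Matrix (Fin 2) (Fin 2) ℂ :=
  M (rr k x * D) ((1 - 2 * k) * rr k x * D / be x)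
    ((φ + (1 - 2 * k) ^ 2 * N 1 x * D * YY k x) / be x ^ 2) x

theorem MM_det (k D φ : ℝ) (x : V) : (MM k D φ x).det.re = rr k x * D * φ / be x ^ 2 :=
  M_det' k D φ x

theorem MM_psd {k D φ : ℝ} {x : V} (hD : 0 < D) (hφ : 0 ≤ φ) : (MM k D φ x).PosSemidef := by
  have := rr_pos k x
  refine psd2 (M_herm _ _ _ _) (by simpa [MM, M] using mul_pos this hD) ?_
  rw [MM_det]
  positivity

theorem fo_smooth {s : ℝ} (hs : 0 ≤ s) : ContDiffAt ℝ 2 fo s :=
  (contDiffAt_const.add contDiffAt_id).log (by simp only [id]; linarith)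

theorem fp_smooth {s : ℝ} (hs : 0 < s) : ContDiffAt ℝ 2 fp s :=
  contDiffAt_const.mul ((contDiffAt_const.add (Real.contDiffAt_sqrt hs.ne')).log (by positivity))

theorem levi_fo (k c : ℝ) (x : V) : levi (pot fo k c) x =
    MM k (1 / (1 + YY k x) ^ 2) ((1 - 2 * k) * (YY k x / (1 + YY k x)) + c) x := by
  have h := YY_nonneg k x
  have h0 : 1 + YY k x ≠ 0 := by linarith
  rw [levi_pot (f1 := fun s => (1 + s)⁻¹) (f2 := -((1 + YY k x) ^ 2)⁻¹)]
  · have e : (1 + YY k x)⁻¹ + YY k x * -((1 + YY k x) ^ 2)⁻¹ = 1 / (1 + YY k x) ^ 2 := by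
      field_simp; ring
    simp only [e, MM, div_eq_mul_inv (YY k x)]
  · filter_upwards [lt_mem_nhds (show -1 < YY k x by linarith)] with s hs
    have hs' : 1 + s ≠ 0 := by linarith
    exact (((hasDerivAt_id s).const_add 1).log hs').congr_deriv (by simp)
  · exact (((hasDerivAt_id (YY k x)).const_add 1).inv h0).congr_deriv (by simp [neg_div])

theorem levi_fp (k c : ℝ) (x : V) (h : 0 < YY k x) : levi (pot fp k c) x =
    MM k (1 / (2 * √(YY k x) * (1 + √(YY k x)) ^ 2))
      ((1 - 2 * k) * (√(YY k x) / (1 + √(YY k x))) + c) x := by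
  have ht := Real.sqrt_pos.2 h
  have hq := Real.mul_self_sqrt h.le
  rw [levi_pot (f1 := fun s => (√s + s)⁻¹)
    (f2 := -(1 / (2 * √(YY k x)) + 1) / (√(YY k x) + YY k x) ^ 2)]
  · generalize √(YY k x) = τ at ht hq
    have e : (τ + YY k x)⁻¹ + YY k x * (-(1 / (2 * τ) + 1) / (τ + YY k x) ^ 2) =
        1 / (2 * τ * (1 + τ) ^ 2) := by
      rw [← hq]; field_simp; ring
    have e' : YY k x * (τ + YY k x)⁻¹ = τ / (1 + τ) := by
      rw [← hq]; field_simp
    simp only [e, e', MM]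
  · filter_upwards [lt_mem_nhds h] with s hs
    have hs' := Real.sqrt_pos.2 hs
    refine ((((Real.hasDerivAt_sqrt hs.ne').const_add 1).log (by positivity)).const_mul
      2).congr_deriv ?_
    have hq' := Real.mul_self_sqrt hs.le
    generalize √s = τ at hs' hq'
    rw [← hq']
    field_simp
  · exact ((Real.hasDerivAt_sqrt h.ne').add (hasDerivAt_id _)).inv
      (by simp only [Pi.add_apply, id]; positivity)

theorem levi_sigma (x : V) : levi (pot (fun _ => 0) 0 1) x = M 0 0 (1 / be x ^ 2) x := by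
  rw [levi_pot (f1 := fun _ => 0) (f2 := 0) (.of_forall fun s => hasDerivAt_const s 0)
    (hasDerivAt_const _ 0)]
  simp

theorem sigma_psd (x : V) : (M 0 0 (1 / be x ^ 2) x).PosSemidef := by
  refine posSemidef_of_re (M_herm _ _ _ _) fun ξ => ?_
  rw [form2 (M_herm _ _ _ _)]
  simp only [M, of_apply, cons_val', cons_val_zero, cons_val_one, cons_val_fin_one,
    Complex.ofReal_re, Complex.ofReal_zero, zero_mul, Complex.zero_re, Complex.zero_im]
  positivity

theorem MM_add (k D φ : ℝ) (x : V) : MM k D φ x + M 0 0 (1 / be x ^ 2) x = MM k D (φ + 1) x := by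
  rw [MM, M_add, MM]
  congr 1 <;> ring

end Pool.Agent.Lib.MP_5fa4f2_an.BU
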