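import Pool.Agent.Lib.MP_5fa4f2_an.Example
import Pool.Agent.Lib.MP_5fa4f2_an.BU.Defs

/-! The complex Hessian of functions of `|y 0|^2` and `|y 1|^2`, and 2 by 2 determinants. -/

set_option autoImplicit false

open scoped ComplexOrder ComplexConjugate
open Filter Topology Matrix

namespace Pool.Agent.Lib.MP_5fa4f2_an.BU

abbrev V := Fin 2 → ℂ

noncomputable def N (j : Fin 2) (y : V) : ℝ := ‖y j‖ ^ 2

noncomputable def dN (y : V) (j : Fin 2) : V →L[ℝ] ℝ :=
  (2 * (y j).re) • (Complex.reCLM.comp (ContinuousLinearMap.proj j)) +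
    (2 * (y j).im) • (Complex.imCLM.comp (ContinuousLinearMap.proj j))

theorem N_eq (j : Fin 2) (y : V) : N j y = (y j).re ^ 2 + (y j).im ^ 2 := by
  rw [N, Complex.sq_norm, Complex.normSq_apply]; ring

theorem N_nonneg (j : Fin 2) (y : V) : 0 ≤ N j y := sq_nonneg _

theorem N_smooth (j : Fin 2) : ContDiff ℝ 2 (N j) := by
  rw [funext (N_eq j)]
  exact ((Complex.reCLM.contDiff.comp (contDiff_apply ℝ ℂ j)).pow 2).add
    ((Complex.imCLM.contDiff.comp (contDiff_apply ℝ ℂ j)).pow 2)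

theorem N_deriv (j : Fin 2) (y : V) : HasFDerivAt (N j) (dN y j) y := by
  rw [funext (N_eq j)]
  have a := ((Complex.reCLM.comp (ContinuousLinearMap.proj (R := ℝ) (φ := fun _ : Fin 2 => ℂ)
    j)).hasFDerivAt (x := y)).pow 2
  have b := ((Complex.imCLM.comp (ContinuousLinearMap.proj (R := ℝ) (φ := fun _ : Fin 2 => ℂ)
    j)).hasFDerivAt (x := y)).pow 2
  exact (a.add b).congr_fderiv (by simp [dN])

/-- `F` has partial derivatives `p`, `q` in the variables `N 0`, `N 1`. -/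
def TD (F : V → ℝ) (y : V) (p q : ℝ) : Prop := HasFDerivAt F (p • dN y 0 + q • dN y 1) y

theorem TD.congr {F : V → ℝ} {y : V} {p q p' q' : ℝ} (h : TD F y p q) (h1 : p' = p)
    (h2 : q' = q) : TD F y p' q' := h1 ▸ h2 ▸ h

theorem TD.n0 (y : V) : TD (N 0) y 1 0 := by simpa [TD] using N_deriv 0 y

theorem TD.n1 (y : V) : TD (N 1) y 0 1 := by simpa [TD] using N_deriv 1 y

theorem TD.add {F G : V → ℝ} {y : V} {p q p' q' : ℝ} (h : TD F y p q) (h' : TD G y p' q') :
    TD (fun x => F x + G x) y (p + p') (q + q') := by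
  exact (HasFDerivAt.add h h').congr_fderiv (by module)

theorem TD.mul {F G : V → ℝ} {y : V} {p q p' q' : ℝ} (h : TD F y p q) (h' : TD G y p' q') :
    TD (fun x => F x * G x) y (p * G y + F y * p') (q * G y + F y * q') := by
  exact (HasFDerivAt.mul h h').congr_fderiv (by module)

theorem TD.comp {F : V → ℝ} {y : V} {p q : ℝ} (h : TD F y p q) {f : ℝ → ℝ} {c : ℝ}
    (hf : HasDerivAt f c (F y)) : TD (fun x => f (F x)) y (c * p) (c * q) := by
  exact (hf.comp_hasFDerivAt y h).congr_fderiv (by module)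

/-- The Hermitian matrix with diagonal `a`, `d` and off diagonal `h * conj (y 0) * y 1`. -/
noncomputable def M (a h d : ℝ) (y : V) : Matrix (Fin 2) (Fin 2) ℂ :=
  !![(a : ℂ), h * conj (y 0) * y 1; h * conj (y 1) * y 0, (d : ℂ)]

theorem levi_toric {F g0 g1 : V → ℝ} {x : V} {a h d : ℝ}
    (hF : ∀ᶠ y in 𝓝 x, TD F y (g0 y) (g1 y)) (h0 : TD g0 x a h) (h1 : TD g1 x h d) :
    levi F x = M (g0 x + a * N 0 x) h (g1 x + d * N 1 x) x := by
  have e : ∀ k : Fin 2, (dzbar k fun y => (F y : ℂ)) =ᶠ[𝓝 x]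
      fun y => ((![g0, g1] k y : ℝ) : ℂ) * y k := fun k => by
    filter_upwards [hF] with y hy
    have h5 : fderiv ℝ (fun y => (F y : ℂ)) y =
        Complex.ofRealCLM.comp (g0 y • dN y 0 + g1 y • dN y 1) :=
      (Complex.ofRealCLM.hasFDerivAt.comp y hy).fderiv
    fin_cases k <;> simp [dzbar, h5, dN] <;> apply Complex.ext <;> simp <;> ring
  have d0 := (((Complex.ofRealCLM.hasFDerivAt.comp x h0).mul
    ((ContinuousLinearMap.proj (R := ℝ) (φ := fun _ : Fin 2 => ℂ) 0).hasFDerivAt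
      (x := x))).congr_of_eventuallyEq (e 0)).fderiv
  have d1 := (((Complex.ofRealCLM.hasFDerivAt.comp x h1).mul
    ((ContinuousLinearMap.proj (R := ℝ) (φ := fun _ : Fin 2 => ℂ) 1).hasFDerivAt
      (x := x))).congr_of_eventuallyEq (e 1)).fderiv
  ext j k
  fin_cases j <;> fin_cases k <;> simp [levi, dz, d0, d1, M, dN, N_eq] <;>
    apply Complex.ext <;> simp [pow_two] <;> ring

theorem det2 {A : Matrix (Fin 2) (Fin 2) ℂ} (hA : A.IsHermitian) :
    A.det.re = (A 0 0).re * (A 1 1).re - ((A 0 1).re ^ 2 + (A 0 1).im ^ 2) := by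
  have h0 : (A 0 0).im = 0 := by simpa using congrArg Complex.im (hA.coe_re_apply_self 0).symm
  have h1 : A 1 0 = conj (A 0 1) := (hA.apply 1 0).symm
  rw [Matrix.det_fin_two, h1]
  simp [h0]
  ring

theorem form2 {A : Matrix (Fin 2) (Fin 2) ℂ} (hA : A.IsHermitian) (ξ : V) :
    (star ξ ⬝ᵥ (A *ᵥ ξ)).re = (A 0 0).re * ((ξ 0).re ^ 2 + (ξ 0).im ^ 2) +
      (A 1 1).re * ((ξ 1).re ^ 2 + (ξ 1).im ^ 2) +
      2 * ((A 0 1).re * ((ξ 0).re * (ξ 1).re + (ξ 0).im * (ξ 1).im) -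
        (A 0 1).im * ((ξ 0).re * (ξ 1).im - (ξ 0).im * (ξ 1).re)) := by
  have h0 : (A 0 0).im = 0 := by simpa using congrArg Complex.im (hA.coe_re_apply_self 0).symm
  have h0' : (A 1 1).im = 0 := by simpa using congrArg Complex.im (hA.coe_re_apply_self 1).symm
  have h1 : A 1 0 = conj (A 0 1) := (hA.apply 1 0).symm
  simp [dotProduct, mulVec, Fin.sum_univ_two, h0, h0', h1]
  ring

theorem psd2 {A : Matrix (Fin 2) (Fin 2) ℂ} (hA : A.IsHermitian) (h0 : 0 < (A 0 0).re)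
    (hd : 0 ≤ A.det.re) : A.PosSemidef := by
  refine posSemidef_of_re hA fun ξ => ?_
  rw [det2 hA] at hd
  rw [form2 hA]
  refine nonneg_of_mul_nonneg_right ?_ h0
  nlinarith [sq_nonneg ((A 0 0).re * (ξ 0).re + (A 0 1).re * (ξ 1).re - (A 0 1).im * (ξ 1).im),
    sq_nonneg ((A 0 0).re * (ξ 0).im + (A 0 1).re * (ξ 1).im + (A 0 1).im * (ξ 1).re),
    mul_nonneg hd (add_nonneg (sq_nonneg (ξ 1).re) (sq_nonneg (ξ 1).im))]

theorem diag_nonneg {A : Matrix (Fin 2) (Fin 2) ℂ} (hA : A.PosSemidef) (j : Fin 2) :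
    0 ≤ (A j j).re := (Complex.nonneg_iff.1 (hA.diag_nonneg (i := j))).1

theorem det_mono {A P : Matrix (Fin 2) (Fin 2) ℂ} (hA : A.PosSemidef) (hP : P.PosSemidef) :
    A.det.re ≤ (A + P).det.re := by
  have a := (Complex.nonneg_iff.1 hA.det_nonneg).1
  have p := (Complex.nonneg_iff.1 hP.det_nonneg).1
  rw [det2 hA.1] at a
  rw [det2 hP.1] at p
  rw [det2 hA.1, det2 (hA.add hP).1]
  simp only [Matrix.add_apply, Complex.add_re, Complex.add_im]
  have a0 := diag_nonneg hA 0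
  have a1 := diag_nonneg hA 1
  have p0 := diag_nonneg hP 0
  have p1 := diag_nonneg hP 1
  have key : 2 * ((A 0 1).re * (P 0 1).re + (A 0 1).im * (P 0 1).im) ≤
      (A 0 0).re * (P 1 1).re + (A 1 1).re * (P 0 0).re := by
    refine le_trans (le_abs_self _) (abs_le_of_sq_le_sq' ?_ (by positivity)).2
    have h1 : ((A 0 1).re ^ 2 + (A 0 1).im ^ 2) * ((P 0 1).re ^ 2 + (P 0 1).im ^ 2) ≤
        ((A 0 0).re * (A 1 1).re) * ((P 0 0).re * (P 1 1).re) :=
      mul_le_mul (by linarith) (by linarith) (by positivity) (by positivity)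
    rw [sq_abs]
    nlinarith [sq_nonneg ((A 0 1).re * (P 0 1).im - (A 0 1).im * (P 0 1).re),
      sq_nonneg ((A 0 0).re * (P 1 1).re - (A 1 1).re * (P 0 0).re)]
  nlinarith

theorem M_herm (a h d : ℝ) (y : V) : (M a h d y).IsHermitian := by
  ext j k
  fin_cases j <;> fin_cases k <;> simp [M] <;> ring

theorem M_det (a h d : ℝ) (y : V) : (M a h d y).det.re = a * d - h ^ 2 * N 0 y * N 1 y := by
  rw [det2 (M_herm a h d y)]
  simp [M, N_eq]
  ring

theorem M_add (a h d a' h' d' : ℝ) (y : V) :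
    M a h d y + M a' h' d' y = M (a + a') (h + h') (d + d') y := by
  ext j k
  fin_cases j <;> fin_cases k <;> simp [M] <;> ring

theorem D2_add {f g : V → ℝ} {x : V} (hf : ContDiffAt ℝ 2 f x) (hg : ContDiffAt ℝ 2 g x) :
    fderiv ℝ (fderiv ℝ fun y => f y + g y) x =
      fderiv ℝ (fderiv ℝ f) x + fderiv ℝ (fderiv ℝ g) x := by
  have e : (fderiv ℝ fun y => f y + g y) =ᶠ[𝓝 x] fun y => fderiv ℝ f y + fderiv ℝ g y := by
    filter_upwards [hf.eventually (by simp), hg.eventually (by simp)] with y h1 h2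
    exact fderiv_fun_add (h1.differentiableAt (by simp)) (h2.differentiableAt (by simp))
  rw [e.fderiv_eq]
  exact fderiv_fun_add ((hf.fderiv_right (m := 1) (by norm_num)).differentiableAt (by simp))
    ((hg.fderiv_right (m := 1) (by norm_num)).differentiableAt (by simp))

theorem levi_add {f g : V → ℝ} {x : V} (hf : ContDiffAt ℝ 2 f x) (hg : ContDiffAt ℝ 2 g x) :
    levi (fun y => f y + g y) x = levi f x + levi g x := by
  ext j k
  rw [Matrix.add_apply, levi_eq (hf.add hg), levi_eq hf, levi_eq hg, D2_add hf hg]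
  simp
  ring

theorem D2_line {q : V → ℝ} {x : V} (hq : ContDiffAt ℝ 2 q x) (v : V)
    (h : IsLocalMax (fun s : ℝ => q (x + s • v)) 0) : fderiv ℝ (fderiv ℝ q) x v v ≤ 0 :=
  oneD (line_deriv hq v).1 (line_deriv hq v).2 h

theorem levi_max {q : V → ℝ} {x : V} (hq : ContDiffAt ℝ 2 q x) (h : IsLocalMax q x) :
    (-levi q x).PosSemidef := by
  have key : ∀ v : V, fderiv ℝ (fderiv ℝ q) x v v ≤ 0 := fun v => D2_line hq v
    (IsLocalMax.comp_continuous (g := fun s : ℝ => x + s • v) (by simpa using h) (by fun_prop))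
  refine posSemidef_of_re (levi_isHermitian hq).neg fun ξ => ?_
  rw [Matrix.neg_mulVec, dotProduct_neg, Complex.neg_re, levi_form hq]
  linarith [key (star ξ), key (Complex.I • star ξ)]

end Pool.Agent.Lib.MP_5fa4f2_an.BU
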