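import Pool.Agent.Lib.MP_5fa4f2_an.BU.Model

/-! The viscosity inequalities in the two kinds of charts. -/

set_option autoImplicit false

open scoped ComplexOrder ComplexConjugate
open Filter Topology Matrix

namespace Pool.Agent.Lib.MP_5fa4f2_an.BU

noncomputable def psi (k : ℝ) (y : V) : ℝ := fp (YY k y) - fo (YY k y)

noncomputable def om (k : ℝ) (y : V) : Matrix (Fin 2) (Fin 2) ℂ := levi (pot fo k k) y

noncomputable def de (k : ℝ) (y : V) : ℝ := (om k y + M 0 0 (1 / be y ^ 2) y).det.re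

theorem om_psd {k : ℝ} (hk : k = 0 ∨ k = 1) (x : V) : (om k x).PosSemidef := by
  have h := YY_nonneg k x
  rw [om, levi_fo]
  refine MM_psd (by positivity) ?_
  have h1 : YY k x / (1 + YY k x) ≤ 1 := div_le_one_of_le₀ (by linarith) (by linarith)
  have h2 : 0 ≤ YY k x / (1 + YY k x) := by positivity
  generalize YY k x / (1 + YY k x) = a at h1 h2
  rcases hk with rfl | rfl <;> linarith

theorem om_det (k : ℝ) (x : V) : (om k x).det.re = rr k x * (1 / (1 + YY k x) ^ 2) *
    ((1 - 2 * k) * (YY k x / (1 + YY k x)) + k) / be x ^ 2 := by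
  rw [om, levi_fo, MM_det]

theorem de_eq (k : ℝ) (x : V) : de k x = rr k x * (1 / (1 + YY k x) ^ 2) *
    ((1 - 2 * k) * (YY k x / (1 + YY k x)) + k + 1) / be x ^ 2 := by
  rw [de, om, levi_fo, MM_add, MM_det]

theorem om_det_pos {k : ℝ} (hk : k = 0 ∨ k = 1) {x : V} (hx : x 0 ≠ 0) :
    0 < (om k x).det.re := by
  have h : 0 < YY k x := mul_pos (pow_pos (norm_pos_iff.2 hx) 2) (rr_pos k x)
  have := rr_pos k x
  have := be_pos x
  have h1 : YY k x / (1 + YY k x) < 1 := (div_lt_one (by linarith)).2 (by linarith)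
  have h2 : 0 < YY k x / (1 + YY k x) := by positivity
  have h3 : 0 < (1 - 2 * k) * (YY k x / (1 + YY k x)) + k := by
    generalize YY k x / (1 + YY k x) = a at h1 h2
    rcases hk with rfl | rfl <;> linarith
  rw [om_det]
  positivity

theorem de_pos {k : ℝ} (hk : k = 0 ∨ k = 1) (x : V) : 0 < de k x := by
  have h := YY_nonneg k x
  have := rr_pos k x
  have := be_pos x
  have h1 : YY k x / (1 + YY k x) ≤ 1 := div_le_one_of_le₀ (by linarith) (by linarith)
  have h2 : 0 ≤ YY k x / (1 + YY k x) := by positivity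
  have h3 : 0 < (1 - 2 * k) * (YY k x / (1 + YY k x)) + k + 1 := by
    generalize YY k x / (1 + YY k x) = a at h1 h2
    rcases hk with rfl | rfl <;> linarith
  rw [de_eq]
  positivity

theorem de_cont (k : ℝ) : Continuous (de k) := by
  rw [funext (de_eq k)]
  have h1 := (rr_smooth k).continuous
  have h2 := (YY_smooth k).continuous
  have h3 := be_smooth.continuous
  have h4 : ∀ x, 1 + YY k x ≠ 0 := fun x => by linarith [YY_nonneg k x]
  have h5 : ∀ x, be x ^ 2 ≠ 0 := fun x => pow_ne_zero 2 (be_pos x).ne'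
  have h6 : ∀ x, (1 + YY k x) ^ 2 ≠ 0 := fun x => pow_ne_zero 2 (h4 x)
  fun_prop (disch := assumption)

theorem kink {k : ℝ} {q : V → ℝ} {x : V} (hq : ContDiffAt ℝ 2 q x) (hx : x 0 = 0)
    (h : IsLocalMax (fun y => psi k y - q y) x) : False := by
  set c := √(rr k x) with hc
  have c0 : 0 < c := Real.sqrt_pos.2 (rr_pos k x)
  have c2 : c * c = rr k x := Real.mul_self_sqrt (rr_pos k x).le
  have hY : ∀ s : ℝ, YY k (x + s • (Pi.single 0 1 : V)) = (s * c) ^ 2 := fun s => by
    have : rr k (x + s • (Pi.single 0 1 : V)) = rr k x := by simp [rr, be, N]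
    rw [YY, this, ← c2]
    simp [N, hx]
    ring
  have hm : IsLocalMax (fun s : ℝ => psi k (x + s • (Pi.single 0 1 : V)) -
      q (x + s • (Pi.single 0 1 : V))) 0 :=
    IsLocalMax.comp_continuous (f := fun y => psi k y - q y)
      (g := fun s : ℝ => x + s • (Pi.single 0 1 : V)) (by simpa using h) (by fun_prop)
  have hd := (line_deriv hq (Pi.single 0 1)).1.self_of_nhds
  have key : ∀ e : ℝ, |e| = c →
      2 * e - fderiv ℝ q (x + (0 : ℝ) • (Pi.single 0 1 : V)) (Pi.single 0 1) = 0 := fun e he => by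
    have hl : IsLocalMax (fun s : ℝ => 2 * Real.log (1 + s * e) - Real.log (1 + (s * c) ^ 2) -
        q (x + s • (Pi.single 0 1 : V))) 0 := by
      have hp : ∀ᶠ s : ℝ in 𝓝 0, 0 < 1 + s * e :=
        (show ContinuousAt (fun s : ℝ => 1 + s * e) 0 by fun_prop).eventually
          (lt_mem_nhds (by simp))
      filter_upwards [hm, hp] with s h1 h2
      simp only [psi, hY, fp, fo, Real.sqrt_sq_eq_abs] at h1
      have : Real.log (1 + s * e) ≤ Real.log (1 + |s * c|) := by
        refine Real.log_le_log h2 ?_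
        rw [← he, abs_mul, abs_abs, ← abs_mul]
        linarith [le_abs_self (s * e)]
      simp only [zero_mul, abs_zero] at h1 ⊢
      linarith
    have d1 := ((((hasDerivAt_id (0 : ℝ)).mul_const e).const_add 1).log (by simp)).const_mul 2
    have d2 := ((((hasDerivAt_id (0 : ℝ)).mul_const c).pow 2).const_add 1).log (by simp)
    simpa using hl.hasDerivAt_eq_zero ((d1.sub d2).sub hd)
  linarith [key c (abs_of_pos c0), key (-c) (by rw [abs_neg, abs_of_pos c0])]

theorem ineq {k τ : ℝ} (hk : k = 0 ∨ k = 1) (ht : 0 < τ) :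
    1 / 16 * (1 / (1 + τ * τ) ^ 2 * ((1 - 2 * k) * (τ * τ / (1 + τ * τ)) + k + 1)) ≤
      1 / (2 * τ * (1 + τ) ^ 2) * ((1 - 2 * k) * (τ / (1 + τ)) + k) := by
  have h1 : (1 + τ) ^ 2 ≤ 2 * (1 + τ * τ) := by nlinarith [sq_nonneg (1 - τ)]
  have h2 : (1 + τ) ^ 4 ≤ 4 * (1 + τ * τ) ^ 2 := by
    have := pow_le_pow_left₀ (by positivity) h1 2
    nlinarith
  have h3 : 0 < (1 + τ) ^ 3 := by positivity
  have h4 : (1 + τ) ^ 3 ≤ 4 * (1 + τ * τ) ^ 2 := by nlinarith
  have h5 : τ * (1 + τ) ^ 3 ≤ 4 * (1 + τ * τ) ^ 2 := by nlinarith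
  have h6 : 0 < 1 + τ * τ := by positivity
  rcases hk with rfl | rfl
  · have e1 : 1 / 16 * (1 / (1 + τ * τ) ^ 2 * ((1 - 2 * 0) * (τ * τ / (1 + τ * τ)) + 0 + 1)) =
        (1 + 2 * (τ * τ)) / (16 * (1 + τ * τ) ^ 3) := by field_simp; ring
    have e2 : 1 / (2 * τ * (1 + τ) ^ 2) * ((1 - 2 * 0) * (τ / (1 + τ)) + 0) =
        1 / (2 * (1 + τ) ^ 3) := by field_simp; ring
    rw [e1, e2, div_le_div_iff₀ (by positivity) (by positivity)]
    have := mul_le_mul (show 1 + 2 * (τ * τ) ≤ 2 * (1 + τ * τ) by linarith) h4 h3.le (by positivity)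
    nlinarith
  · have e1 : 1 / 16 * (1 / (1 + τ * τ) ^ 2 * ((1 - 2 * 1) * (τ * τ / (1 + τ * τ)) + 1 + 1)) =
        (2 + τ * τ) / (16 * (1 + τ * τ) ^ 3) := by field_simp; ring
    have e2 : 1 / (2 * τ * (1 + τ) ^ 2) * ((1 - 2 * 1) * (τ / (1 + τ)) + 1) =
        1 / (2 * (τ * (1 + τ) ^ 3)) := by field_simp; ring
    rw [e1, e2, div_le_div_iff₀ (by positivity) (by positivity)]
    have := mul_le_mul (show 2 + τ * τ ≤ 2 * (1 + τ * τ) by nlinarith) h5 (by positivity)
      (by positivity)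
    nlinarith

theorem exp_le : Real.exp (-3) ≤ 1 / 16 := by
  have h : (16 : ℝ) ≤ Real.exp 3 := by
    have := pow_le_pow_left₀ (by norm_num) Real.exp_one_gt_d9.le 3
    rw [← Real.exp_nat_mul] at this
    norm_num at this ⊢
    linarith
  rw [Real.exp_neg, one_div]
  exact inv_anti₀ (by norm_num) h

theorem sub_model {k : ℝ} (hk : k = 0 ∨ k = 1) :
    IsSub 1 (fun _ => om k) (fun _ _ _ => 0) (fun _ => de k) (fun t y => psi k y - 3 * t) := by
  intro t _ x q hq hmax
  have hs : IsLocalMax (fun y => psi k y - q t y) x := by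
    have := (slice_x hmax).add (isMaxFilter_const (b := 3 * t))
    exact this.congr (.of_forall fun y => by ring)
  have hx : x 0 ≠ 0 := fun hx => kink hq.2 hx hs
  have hY : 0 < YY k x := mul_pos (pow_pos (norm_pos_iff.2 hx) 2) (rr_pos k x)
  have hd : deriv (fun s => q s x) t = -3 := by
    have := (slice_t hmax).hasDerivAt_eq_zero
      ((((hasDerivAt_id t).const_mul 3).const_sub (psi k x)).sub hq.1.hasDerivAt)
    linarith
  have s1 : ContDiffAt ℝ 2 (pot fo k k) x := pot_smooth (fo_smooth hY.le)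
  have s2 : ContDiffAt ℝ 2 (pot fp k k) x := pot_smooth (fp_smooth hY)
  have s3 : ContDiffAt ℝ 2 (fun y => psi k y - q t y) x :=
    (((fp_smooth hY).comp x (YY_smooth k).contDiffAt).sub
      ((fo_smooth hY.le).comp x (YY_smooth k).contDiffAt)).sub hq.2
  have e : om k x + levi (q t) x = levi (pot fp k k) x + -levi (fun y => psi k y - q t y) x := by
    rw [← sub_eq_add_neg, eq_sub_iff_add_eq, om, ← levi_add s1 hq.2, ← levi_add (s1.add hq.2) s3]
    congr 1
    funext y
    simp only [pot, psi]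
    ring
  have ht := Real.sqrt_pos.2 hY
  have hP : (levi (pot fp k k) x).PosSemidef := by
    rw [levi_fp k k x hY]
    refine MM_psd (by positivity) ?_
    have h1 : √(YY k x) / (1 + √(YY k x)) ≤ 1 := div_le_one_of_le₀ (by linarith) (by linarith)
    have h2 : 0 ≤ √(YY k x) / (1 + √(YY k x)) := by positivity
    generalize √(YY k x) / (1 + √(YY k x)) = a at h1 h2
    rcases hk with rfl | rfl <;> linarith
  have hQ := levi_max s3 hs
  simp only [e]
  refine ⟨hP.add hQ, ?_⟩
  rw [detPlus, if_pos (hP.add hQ), hd, add_zero]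
  refine le_trans ?_ (det_mono hP hQ)
  refine (mul_le_mul_of_nonneg_right exp_le (de_pos hk x).le).trans ?_
  rw [levi_fp k k x hY, MM_det, de_eq]
  have := mul_le_mul_of_nonneg_left (ineq hk ht)
    (div_nonneg (rr_pos k x).le (sq_nonneg (be x)))
  rw [Real.mul_self_sqrt hY.le] at this
  refine le_of_eq_of_le ?_ (this.trans_eq ?_) <;> ring

theorem super_off {k : ℝ} (hk : k = 0 ∨ k = 1) {t : ℝ} {x : V} {q : ℝ → V → ℝ}
    (hq : IsTest q t x) (h : IsLocalMax (fun p : ℝ × V => q p.1 p.2) (t, x)) :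
    detPlus (om k x + levi (q t) x) ≤ Real.exp (deriv (fun s => q s x) t + 0) * de k x := by
  rw [(slice_t h).deriv_eq_zero, add_zero, Real.exp_zero, one_mul, detPlus]
  split_ifs with hP
  · have := det_mono hP ((levi_max hq.2 (slice_x h)).add (sigma_psd x))
    rwa [show om k x + levi (q t) x + (-levi (q t) x + M 0 0 (1 / be x ^ 2) x) =
      om k x + M 0 0 (1 / be x ^ 2) x by abel] at this
  · exact (de_pos hk x).le

theorem super_on {q : V → ℝ} {x : V} (hq : ContDiffAt ℝ 2 q x) (hx : x 0 = 0)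
    (h : ∀ v : V, v 0 = 0 → IsLocalMax (fun s : ℝ => q (x + s • v)) 0) :
    detPlus (om 0 x + levi q x) ≤ 0 := by
  rw [detPlus]
  split_ifs with hP
  · have h1 : (om 0 x 1 1).re = 0 := by
      rw [om, levi_fo]
      simp [MM, M, YY, N, hx]
    have h2 : (levi q x 1 1).re ≤ 0 := by
      have a := D2_line hq _ (h (Pi.single 1 1) (by simp))
      have b := D2_line hq _ (h (Pi.single 1 Complex.I) (by simp))
      rw [levi_eq hq]
      simp
      linarith
    have h3 := diag_nonneg hP 0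
    have h4 : ((om 0 x + levi q x) 1 1).re ≤ 0 := by
      rw [Matrix.add_apply, Complex.add_re]; linarith
    rw [det2 hP.1]
    nlinarith [mul_nonneg h3 (neg_nonneg.2 h4), sq_nonneg ((om 0 x + levi q x) 0 1).re,
      sq_nonneg ((om 0 x + levi q x) 0 1).im]
  · exact le_rfl

open Classical in
theorem super_model0 : IsSuper 1 (fun _ => om 0) (fun _ _ _ => 0) (fun _ => de 0)
    (fun t y => if y 0 = 0 then 1 - 6 * t else 1) := by
  intro t _ x q hq hmin
  by_cases hx : x 0 = 0
  · refine (super_on hq.2 hx fun v hv => ?_).trans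
      (mul_nonneg (Real.exp_pos _).le (de_pos (Or.inl rfl) x).le)
    have h1 := IsLocalMax.comp_continuous (g := fun s : ℝ => x + s • v) (b := 0)
      (by simpa using slice_x hmin.neg) (by fun_prop)
    filter_upwards [h1] with s hs
    simpa [hx, hv] using hs
  · refine super_off (Or.inl rfl) hq ?_
    have h1 : ∀ᶠ p : ℝ × V in 𝓝 (t, x), p.2 0 ≠ 0 :=
      (show ContinuousAt (fun p : ℝ × V => p.2 0) (t, x) by fun_prop).eventually_ne hx
    filter_upwards [hmin, h1] with p h2 h3
    simp only [hx, h3, if_false] at h2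
    linarith

theorem super_model1 : IsSuper 1 (fun _ => om 1) (fun _ _ _ => 0) (fun _ => de 1)
    (fun _ _ => 1) := by
  intro t _ x q hq hmin
  refine super_off (Or.inr rfl) hq ?_
  filter_upwards [hmin] with p h2
  linarith

end Pool.Agent.Lib.MP_5fa4f2_an.BU
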